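import Pool.Agent.Helper86.FF.Main
import Pool.Agent.Helper91.FF.TREE

/-!
# Firefighter on trees: subexponential parameterized algorithms

Saving `k` vertices on trees is decided in time `2 ^ O(√k) * poly`; Saving all but `k` vertices and
Maximum `k`-vertex protection on trees are not decided in time `2 ^ o(k) * poly`, unless the
Exponential Time Hypothesis fails.
-/

namespace Pool.Agent.Results.MP_4a4383_lc.FirefighterTrees

open Pool.FF Pool.Agent.NPC

theorem result :
    -- the instances: `codeTree p` (with the root `0`) are exactly the finite rooted trees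
    ((∀ p, IsTreeCode p → (codeTree p).IsTree) ∧
      ∀ (V : Type) [Fintype V] (G : SimpleGraph V), G.IsTree → ∀ s : V,
        ∃ p, IsTreeCode p ∧ ∃ f : codeTree p ≃g G, f 0 = s) ∧
    -- Saving `k` vertices
    (∃ (c : ℕ) (q : Polynomial ℕ),
      DecidedIn (fun x : List ℕ × ℕ => IsTreeCode x.1)
        (fun x => SavesAtLeast (codeTree x.1) 0 x.2)
        (fun x => 2 ^ (c * (Nat.sqrt x.2 + 1)) * q.eval (bits x).length)) ∧
    -- Saving all but `k` vertices
    (SubexpTime (fun x : List ℕ × ℕ => IsTreeCode x.1) (fun x => x.2)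
      (fun x => BurnsAtMost (codeTree x.1) 0 x.2) → EthFails) ∧
    -- Maximum `k`-vertex protection
    (SubexpTime (fun x : List ℕ × ℕ × ℕ => IsTreeCode x.1) (fun x => x.2.1)
      (fun x => ProtectSaves (codeTree x.1) 0 x.2.1 x.2.2) → EthFails) :=
  ⟨Pool.FF.Helper91.tree Pool.FF.Main.dep, Pool.FF.Main.pos, Pool.FF.Main.negA, Pool.FF.Main.negB⟩

end Pool.Agent.Results.MP_4a4383_lc.FirefighterTrees
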